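import Pool.Agent.H174.GP.StP

/-!
Project GP (helper174), leaf shift: the shift inequality (Hölder) for the Laplace sequence.
-/

set_option autoImplicit false

open MeasureTheory ProbabilityTheory Finset

namespace Pool.Agent.H967.GP174

open Pool.Agent.H174.GP

/-- The density of the shifted Laplace distribution with respect to the Laplace distribution. -/
noncomputable def rr (η z : ℝ) : ENNReal := ENNReal.ofReal (Real.exp (|z| - |z - η|))

theorem rr_meas (η : ℝ) : Measurable (rr η) := by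
  unfold rr
  fun_prop

theorem dens_meas : Measurable (fun x : ℝ => ENNReal.ofReal (Real.exp (-|x|) / 2)) := by
  fun_prop

theorem lap_map (η : ℝ) : lap.map (fun x => x + η) = lap.withDensity (rr η) := by
  ext s hs
  have hm : Measurable (fun x : ℝ => x + η) := by fun_prop
  rw [Measure.map_apply hm hs, withDensity_apply _ hs]
  unfold lap
  rw [withDensity_apply _ (hm hs), setLIntegral_withDensity_eq_setLIntegral_mul _ dens_meas
    (rr_meas η) hs, ← lintegral_indicator (hm hs), ← lintegral_indicator hs]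
  refine Eq.trans (lintegral_congr fun x => ?_) (lintegral_add_right_eq_self
    (s.indicator ((fun x : ℝ => ENNReal.ofReal (Real.exp (-|x|) / 2)) * rr η)) η)
  by_cases hx : x + η ∈ s
  · rw [Set.indicator_of_mem (show x ∈ (fun x : ℝ => x + η) ⁻¹' s from hx),
      Set.indicator_of_mem hx, Pi.mul_apply]
    unfold rr
    rw [← ENNReal.ofReal_mul (by positivity), add_sub_cancel_right]
    congr 1
    rw [div_mul_eq_mul_div, ← Real.exp_add]
    congr 2
    ring
  · rw [Set.indicator_of_notMem (show x ∉ (fun x : ℝ => x + η) ⁻¹' s from hx),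
      Set.indicator_of_notMem hx]

instance lap_rr_prob (η : ℝ) : IsProbabilityMeasure (lap.withDensity (rr η)) := by
  rw [← lap_map]
  exact Measure.isProbabilityMeasure_map (by fun_prop)

variable {ι : Type*} [Fintype ι]

theorem lint_prod (g : ι → ℝ → ENNReal) (hg : ∀ i, Measurable (g i)) :
    ∫⁻ x, ∏ i, g i (x i) ∂(Measure.pi (fun _ : ι => lap)) = ∏ i, ∫⁻ z, g i z ∂lap := by
  rw [lintegral_prod_eq_prod_lintegral_of_indepFun Finset.univ (fun i (x : ι → ℝ) => g i (x i))
    (iIndepFun_pi fun i => (hg i).aemeasurable) (fun i => (hg i).comp (measurable_pi_apply i))]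
  refine Finset.prod_congr rfl fun i _ => ?_
  exact (measurePreserving_eval (fun _ : ι => lap) i).lintegral_comp (hg i)

theorem pi_dens (η : ι → ℝ) :
    Measure.pi (fun i => lap.withDensity (rr (η i))) =
      (Measure.pi (fun _ : ι => lap)).withDensity (fun x => ∏ i, rr (η i) (x i)) := by
  refine Measure.pi_eq fun s hs => ?_
  rw [withDensity_apply _ (MeasurableSet.univ_pi hs),
    ← lintegral_indicator (MeasurableSet.univ_pi hs)]
  have h1 : ∀ x : ι → ℝ, (Set.univ.pi s).indicator (fun x => ∏ i, rr (η i) (x i)) x =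
      ∏ i, (s i).indicator (rr (η i)) (x i) := by
    intro x
    by_cases hx : x ∈ Set.univ.pi s
    · rw [Set.indicator_of_mem hx]
      refine Finset.prod_congr rfl fun i _ => ?_
      rw [Set.indicator_of_mem (hx i (Set.mem_univ i))]
    · rw [Set.indicator_of_notMem hx]
      simp only [Set.mem_pi, Set.mem_univ, true_implies, not_forall] at hx
      obtain ⟨i, hi⟩ := hx
      exact (Finset.prod_eq_zero (Finset.mem_univ i) (Set.indicator_of_notMem hi _)).symm
  rw [lintegral_congr h1, lint_prod _ fun i => (rr_meas _).indicator (hs i)]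
  refine Finset.prod_congr rfl fun i _ => ?_
  rw [lintegral_indicator (hs i), withDensity_apply _ (hs i)]

theorem pi_map (η : ι → ℝ) :
    (Measure.pi (fun _ : ι => lap)).map (fun x i => x i + η i) =
      (Measure.pi (fun _ : ι => lap)).withDensity (fun x => ∏ i, rr (η i) (x i)) := by
  have h0 : ∀ i : ι, IsProbabilityMeasure (lap.map (fun x => x + η i)) := fun i =>
    Measure.isProbabilityMeasure_map (by fun_prop)
  rw [Measure.pi_map_pi (f := fun i x => x + η i) (fun i => by fun_prop), ← pi_dens]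
  congr 1
  funext i
  exact lap_map (η i)

/-- Hölder. -/
theorem pi_holder (η : ι → ℝ) (G : Set (ι → ℝ)) (hG : MeasurableSet G) {a b : ℝ}
    (hab : a.HolderConjugate b) :
    Measure.pi (fun _ : ι => lap) G ≤
      (Measure.pi (fun _ : ι => lap) {x | (fun i => x i - η i) ∈ G}) ^ (1 / a) *
        (∏ i, ∫⁻ z, rr (η i) z ^ b ∂lap) ^ (1 / b) := by
  set μ := Measure.pi (fun _ : ι => lap) with hμ
  have hm : Measurable (fun (x : ι → ℝ) i => x i - η i) := by fun_prop
  have hm' : Measurable (fun (x : ι → ℝ) i => x i + η i) := by fun_prop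
  have hG' : MeasurableSet {x : ι → ℝ | (fun i => x i - η i) ∈ G} := hm hG
  have hR : Measurable (fun x : ι → ℝ => ∏ i, rr (η i) (x i)) :=
    Finset.measurable_fun_prod _ fun i _ => (rr_meas (η i)).comp (measurable_pi_apply i)
  have h1 : μ G = (μ.map (fun x i => x i + η i)) {x | (fun i => x i - η i) ∈ G} := by
    rw [Measure.map_apply hm' hG']
    congr 1
    ext x
    simp
  rw [h1, pi_map, withDensity_apply _ hG', ← lintegral_indicator hG']
  have h2 : ∀ x : ι → ℝ, ({x | (fun i => x i - η i) ∈ G} : Set (ι → ℝ)).indicator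
      (fun x => ∏ i, rr (η i) (x i)) x =
      ((({x | (fun i => x i - η i) ∈ G} : Set (ι → ℝ)).indicator (fun _ => (1 : ENNReal))) *
        (fun x : ι → ℝ => ∏ i, rr (η i) (x i))) x := by
    intro x
    rw [Pi.mul_apply]
    by_cases hx : x ∈ {x : ι → ℝ | (fun i => x i - η i) ∈ G}
    · rw [Set.indicator_of_mem hx, Set.indicator_of_mem hx, one_mul]
    · rw [Set.indicator_of_notMem hx, Set.indicator_of_notMem hx, zero_mul]
  rw [lintegral_congr h2]
  refine (ENNReal.lintegral_mul_le_Lp_mul_Lq μ hab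
    ((measurable_const.indicator hG').aemeasurable) hR.aemeasurable).trans (le_of_eq ?_)
  congr 2
  · have h3 : ∀ x : ι → ℝ, (({x | (fun i => x i - η i) ∈ G} : Set (ι → ℝ)).indicator
        (fun _ => (1 : ENNReal)) x) ^ a =
        ({x | (fun i => x i - η i) ∈ G} : Set (ι → ℝ)).indicator (fun _ => (1 : ENNReal)) x := by
      intro x
      by_cases hx : x ∈ {x : ι → ℝ | (fun i => x i - η i) ∈ G}
      · rw [Set.indicator_of_mem hx, ENNReal.one_rpow]
      · rw [Set.indicator_of_notMem hx, ENNReal.zero_rpow_of_pos hab.pos]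
    rw [lintegral_congr h3, lintegral_indicator hG', setLIntegral_one]
  · rw [← lint_prod (fun i z => rr (η i) z ^ b) (fun i => (rr_meas (η i)).pow_const b)]
    refine lintegral_congr fun x => ?_
    rw [ENNReal.prod_rpow_of_nonneg hab.symm.nonneg]

theorem mom (h1 : S_L6) {b η : ℝ} (hb : 0 < b) (hη : 0 ≤ η) (hbη : b * η ≤ 1 / 2) :
    ∫⁻ z, rr η z ^ b ∂lap ≤ ENNReal.ofReal (Real.exp (b ^ 2 * η ^ 2)) := by
  have h2 : ∀ z : ℝ, rr η z ^ b = ENNReal.ofReal (Real.exp (b * (|z| - |z - η|))) := by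
    intro z
    unfold rr
    rw [ENNReal.ofReal_rpow_of_pos (Real.exp_pos _), ← Real.exp_mul, mul_comm]
  have hi : Integrable (fun z : ℝ => Real.exp (b * (|z| - |z - η|))) lap := by
    refine Integrable.of_bound (C := Real.exp (b * η)) (by fun_prop) (Filter.Eventually.of_forall fun z => ?_)
    rw [Real.norm_eq_abs, abs_of_pos (Real.exp_pos _), Real.exp_le_exp]
    refine mul_le_mul_of_nonneg_left ?_ hb.le
    have := abs_sub_abs_le_abs_sub z (z - η)
    rw [sub_sub_cancel, abs_of_nonneg hη] at this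
    exact this
  rw [lintegral_congr h2, ← ofReal_integral_eq_lintegral_ofReal hi
    (Filter.Eventually.of_forall fun z => (Real.exp_pos _).le)]
  exact ENNReal.ofReal_le_ofReal (h1 b η hb hη hbη)

/-- The extension by zero. -/
noncomputable def ext0 (J : Finset ℕ) (v : J → ℝ) (j : ℕ) : ℝ := if h : j ∈ J then v ⟨j, h⟩ else 0

theorem ext0_meas (J : Finset ℕ) : Measurable (ext0 J) := by
  refine measurable_pi_lambda _ fun j => ?_
  unfold ext0
  by_cases h : j ∈ J
  · simp only [h, dif_pos]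
    exact measurable_pi_apply _
  · simp only [h, dif_neg, not_false_iff]
    exact measurable_const

theorem dep_iff {J : Finset ℕ} {F : Set (ℕ → ℝ)} (hF : DepOn J F) (ω : ℕ → ℝ) :
    ω ∈ F ↔ ext0 J (J.restrict ω) ∈ F := by
  have h : ∀ j ∈ J, ω j = ext0 J (J.restrict ω) j := by
    intro j hj
    unfold ext0
    rw [dif_pos hj]
    rfl
  exact ⟨hF _ _ h, hF _ _ fun j hj => (h j hj).symm⟩

theorem PP_restrict (J : Finset ℕ) (G : Set (J → ℝ)) (hG : MeasurableSet G) :
    PP (J.restrict ⁻¹' G) = Measure.pi (fun _ : J => lap) G := by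
  unfold PP
  rw [← Measure.infinitePi_map_restrict (μ := fun _ : ℕ => lap) (I := J),
    Measure.map_apply (Finset.measurable_restrict J) hG]

theorem main (h1 : S_L6) (ε : ℝ) (J : Finset ℕ) (η : ℕ → ℝ) (F : Set (ℕ → ℝ)) (hε : 0 < ε)
    (hε1 : ε ≤ 1) (hη : ∀ j, 0 ≤ η j ∧ η j ≤ ε / 4) (hFm : MeasurableSet F) (hF : DepOn J F) :
    (PP.real F) ^ (1 + ε) * Real.exp (-((4 / ε) * ∑ j ∈ J, (η j) ^ 2))
      ≤ PP.real {ω | (fun j => ω j - η j) ∈ F} := by
  set G : Set (J → ℝ) := {v | ext0 J v ∈ F} with hGd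
  have hG : MeasurableSet G := ext0_meas J hFm
  set η' : J → ℝ := fun j => η j with hη'
  set a : ℝ := 1 + ε with ha
  set b : ℝ := (1 + ε) / ε with hb
  have ha0 : 0 < a := by rw [ha]; linarith
  have hb0 : 0 < b := by rw [hb]; positivity
  have hab : a.HolderConjugate b := by
    rw [Real.holderConjugate_iff]
    refine ⟨by rw [ha]; linarith, ?_⟩
    rw [ha, hb]
    field_simp
  have e1 : F = J.restrict ⁻¹' G := by
    ext ω
    rw [dep_iff hF]
    rfl
  have e2 : {ω : ℕ → ℝ | (fun j => ω j - η j) ∈ F} =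
      J.restrict ⁻¹' {x : J → ℝ | (fun i => x i - η' i) ∈ G} := by
    ext ω
    rw [Set.mem_ofPred_eq, dep_iff hF]
    rfl
  have hG' : MeasurableSet {x : J → ℝ | (fun i => x i - η' i) ∈ G} := by
    have hm : Measurable (fun (x : J → ℝ) i => x i - η' i) := by fun_prop
    exact hm hG
  have f1 : PP F = Measure.pi (fun _ : J => lap) G := by
    conv_lhs => rw [e1]
    exact PP_restrict J G hG
  have f2 : PP {ω : ℕ → ℝ | (fun j => ω j - η j) ∈ F} =
      Measure.pi (fun _ : J => lap) {x : J → ℝ | (fun i => x i - η' i) ∈ G} := by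
    rw [e2]
    exact PP_restrict J _ hG'
  have h2 := pi_holder η' G hG hab
  rw [← f1, ← f2] at h2
  set Sg : ℝ := ∑ j ∈ J, (η j) ^ 2 with hSg
  have hSg0 : 0 ≤ Sg := Finset.sum_nonneg fun j _ => sq_nonneg _
  have h3 : ∏ i : J, ∫⁻ z, rr (η' i) z ^ b ∂lap ≤ ENNReal.ofReal (Real.exp (b ^ 2 * Sg)) := by
    have h4 : ∏ i : J, ∫⁻ z, rr (η' i) z ^ b ∂lap ≤
        ∏ i : J, ENNReal.ofReal (Real.exp (b ^ 2 * (η' i) ^ 2)) := by
      refine Finset.prod_le_prod' fun i _ => mom h1 hb0 (hη _).1 ?_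
      calc b * η' i ≤ b * (ε / 4) := mul_le_mul_of_nonneg_left (hη _).2 hb0.le
        _ = (1 + ε) / 4 := by rw [hb]; field_simp
        _ ≤ 1 / 2 := by linarith
    refine h4.trans (le_of_eq ?_)
    rw [← ENNReal.ofReal_prod_of_nonneg fun i _ => (Real.exp_pos _).le, ← Real.exp_sum,
      ← Finset.mul_sum]
    congr 3
    rw [hSg]
    exact Finset.sum_coe_sort J (fun j => (η j) ^ 2)
  have h5 : PP F ≤ (PP {ω : ℕ → ℝ | (fun j => ω j - η j) ∈ F}) ^ (1 / a) *
      (ENNReal.ofReal (Real.exp (b ^ 2 * Sg))) ^ (1 / b) :=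
    h2.trans (mul_le_mul_right (ENNReal.rpow_le_rpow h3 (by positivity)) _)
  set p := PP.real F with hp
  set p' := PP.real {ω : ℕ → ℝ | (fun j => ω j - η j) ∈ F} with hp'
  have hp0 : 0 ≤ p := measureReal_nonneg
  have hp'0 : 0 ≤ p' := measureReal_nonneg
  have g1 : PP F = ENNReal.ofReal p := by
    rw [hp, ofReal_measureReal]
  have g2 : PP {ω : ℕ → ℝ | (fun j => ω j - η j) ∈ F} = ENNReal.ofReal p' := by
    rw [hp', ofReal_measureReal]
  rw [g1, g2, ENNReal.ofReal_rpow_of_nonneg hp'0 (by positivity),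
    ENNReal.ofReal_rpow_of_pos (Real.exp_pos _), ← ENNReal.ofReal_mul (by positivity),
    ENNReal.ofReal_le_ofReal_iff (by positivity), ← Real.exp_mul] at h5
  have e3 : b ^ 2 * Sg * (1 / b) = b * Sg := by field_simp
  rw [e3] at h5
  have h6 : p ^ a ≤ p' * Real.exp (a * b * Sg) := by
    calc p ^ a ≤ (p' ^ (1 / a) * Real.exp (b * Sg)) ^ a := Real.rpow_le_rpow hp0 h5 ha0.le
      _ = p' * Real.exp (a * b * Sg) := by
          rw [Real.mul_rpow (Real.rpow_nonneg hp'0 _) (Real.exp_pos _).le, ← Real.rpow_mul hp'0,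
            one_div_mul_cancel ha0.ne', Real.rpow_one, ← Real.exp_mul]
          congr 2
          ring
  have h7 : a * b ≤ 4 / ε := by
    rw [ha, hb, ← mul_div_assoc, div_le_div_iff_of_pos_right hε]
    nlinarith
  have h8 : Real.exp (a * b * Sg) ≤ Real.exp (4 / ε * Sg) :=
    Real.exp_le_exp.2 (mul_le_mul_of_nonneg_right h7 hSg0)
  calc p ^ a * Real.exp (-(4 / ε * Sg)) ≤ (p' * Real.exp (4 / ε * Sg)) *
        Real.exp (-(4 / ε * Sg)) :=
        mul_le_mul_of_nonneg_right (h6.trans (mul_le_mul_of_nonneg_left h8 hp'0)) (Real.exp_pos _).le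
    _ = p' := by
        rw [mul_assoc, ← Real.exp_add, add_neg_cancel, Real.exp_zero, mul_one]

theorem gp_shift (h1 : S_L6) : Pool.Agent.H174.GP.S_shift := by
  intro ε N η F hε hε1 hη hFm hF
  exact main h1 ε (Finset.Icc 1 N) η F hε hε1 hη hFm hF

end Pool.Agent.H967.GP174
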