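import Pool.Agent.H174.GP.StD
import Pool.Agent.H828.GP174.acheb

/-!
Project GP (helper174), leaf a2l: lower bound for `a2`.
-/

set_option autoImplicit false

open MeasureTheory ProbabilityTheory Finset Filter Topology

namespace Pool.Agent.H967.GP174

open Pool.Agent.H174.GP Pool.Agent.H828.GP174

theorem aa_nonneg (h1 : S_aalaw) {d : ℕ} {σ : ℝ} (hσ : 0 < σ) (m : ℤ) : 0 ≤ aa d σ m := by
  rw [h1 d σ m hσ]
  exact measureReal_nonneg

theorem aa_neg {d : ℕ} {σ : ℝ} {m : ℤ} (hm : m < 0) : aa d σ m = 0 := by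
  unfold aa
  rw [if_neg (not_le.2 hm)]

open Classical in
/-- the range of typical values -/
noncomputable def typ (d : ℕ) (σ t : ℝ) : Finset ℕ :=
  (Finset.range (⌊mu d σ + t⌋₊ + 1)).filter (fun n : ℕ => |(n : ℝ) - mu d σ| ≤ t)

theorem typ_mass (h1 : S_aalaw) (h2 : S_var2) (h3 : S_L1) (h4 : S_L3) {s : ℝ} (hs : 0 < s)
    {d : ℕ} (hd : 1 ≤ d) {σ : ℝ} (hσ : 0 < σ) (hsd : s ≤ σ * d) :
    1 / 2 ≤ ∑ n ∈ typ d σ (1 / s * (d : ℝ) ^ (3 / 2 : ℝ)), aa d σ n := by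
  have hd0 : (0 : ℝ) < d := by exact_mod_cast hd
  have hd1 : (1 : ℝ) ≤ d := by exact_mod_cast hd
  set t : ℝ := 1 / s * (d : ℝ) ^ (3 / 2 : ℝ) with ht
  have ht0 : 0 < t := by positivity
  -- Chebyshev
  have hv := h2 (Finset.Icc 1 d) (psi σ) t ht0 (fun j _ => psi_meas σ j)
    (fun j hj => (psi_int2 h3 hσ (Finset.mem_Icc.1 hj).1).1)
  have hsum : (∑ j ∈ Finset.Icc 1 d, ∫ x, (psi σ j x) ^ 2 ∂lap) / t ^ 2 ≤ 1 / 2 := by
    have e1 : ∑ j ∈ Finset.Icc 1 d, ∫ x, (psi σ j x) ^ 2 ∂lap ≤ d * (1 / (2 * σ ^ 2)) := by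
      refine (Finset.sum_le_sum fun j hj =>
        (psi_int2 h3 hσ (Finset.mem_Icc.1 hj).1).2).trans (le_of_eq ?_)
      rw [Finset.sum_const, Nat.card_Icc, Nat.add_sub_cancel, nsmul_eq_mul]
    have e2 : t ^ 2 = (d : ℝ) ^ 3 / s ^ 2 := by
      rw [ht, mul_pow, ← Real.rpow_natCast ((d : ℝ) ^ (3 / 2 : ℝ)) 2, ← Real.rpow_mul hd0.le]
      have : (3 / 2 : ℝ) * ((2 : ℕ) : ℝ) = ((3 : ℕ) : ℝ) := by norm_num
      rw [this, Real.rpow_natCast]
      ring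
    rw [div_le_iff₀ (by positivity), e2]
    refine e1.trans ?_
    have e3 : s ^ 2 ≤ (σ * d) ^ 2 := pow_le_pow_left₀ hs.le hsd 2
    rw [mul_one_div, div_le_iff₀ (by positivity)]
    have e4 : (1 / 2 : ℝ) * ((d : ℝ) ^ 3 / s ^ 2) * (2 * σ ^ 2) = (d : ℝ) * ((σ * d) ^ 2 / s ^ 2) := by
      field_simp
    rw [e4]
    have e5 : 1 ≤ (σ * d) ^ 2 / s ^ 2 := by
      rw [le_div_iff₀ (by positivity)]
      linarith
    nlinarith
  have hP : PP.real {ω | t ≤ |∑ j ∈ Finset.Icc 1 d, (psi σ j (ω j) - ∫ x, psi σ j x ∂lap)|} ≤ 1 / 2 :=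
    hv.trans hsum
  have hmu : ∀ ω : ℕ → ℝ, ∑ j ∈ Finset.Icc 1 d, (psi σ j (ω j) - ∫ x, psi σ j x ∂lap) =
      ((∑ j ∈ Finset.Icc 1 d, (j : ℤ) * ⌊|ω j| / (2 * σ * j)⌋ : ℤ) : ℝ) - mu d σ := by
    intro ω
    rw [Finset.sum_sub_distrib]
    congr 1
    · push_cast
      rfl
    · exact Finset.sum_congr rfl fun j hj => psi_int1 h4 hσ (Finset.mem_Icc.1 hj).1
  have hcov : (Set.univ : Set (ℕ → ℝ)) ⊆
      {ω | t ≤ |∑ j ∈ Finset.Icc 1 d, (psi σ j (ω j) - ∫ x, psi σ j x ∂lap)|} ∪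
        ⋃ n ∈ typ d σ t,
          {ω | (∑ j ∈ Finset.Icc 1 d, (j : ℤ) * ⌊|ω j| / (2 * σ * j)⌋) = ((n : ℕ) : ℤ)} := by
    rintro ω -
    by_cases hω : t ≤ |∑ j ∈ Finset.Icc 1 d, (psi σ j (ω j) - ∫ x, psi σ j x ∂lap)|
    · exact Or.inl hω
    · right
      rw [not_le, hmu ω] at hω
      have h0 : 0 ≤ ∑ j ∈ Finset.Icc 1 d, (j : ℤ) * ⌊|ω j| / (2 * σ * j)⌋ :=
        Finset.sum_nonneg fun j _ => mul_nonneg (Int.natCast_nonneg j)
          (Int.floor_nonneg.2 (by positivity))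
      obtain ⟨n, hn⟩ := Int.eq_ofNat_of_zero_le h0
      rw [hn, Int.cast_natCast] at hω
      refine Set.mem_iUnion₂.2 ⟨n, ?_, hn⟩
      unfold typ
      rw [Finset.mem_filter, Finset.mem_range]
      refine ⟨?_, hω.le⟩
      rw [Nat.lt_succ_iff]
      apply Nat.le_floor
      have := (abs_lt.1 hω).2
      linarith
  have hone : (1 : ℝ) ≤ 1 / 2 + ∑ n ∈ typ d σ t, aa d σ n := by
    calc (1 : ℝ) = PP.real Set.univ := (probReal_univ).symm
      _ ≤ _ := measureReal_mono hcov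
      _ ≤ _ := measureReal_union_le _ _
      _ ≤ _ := add_le_add hP ((measureReal_biUnion_finset_le _ _).trans
          (Finset.sum_le_sum fun m _ => (h1 d σ m hσ).symm.le))
  linarith

theorem gp_a2l (h1 : S_aalaw) (h2 : S_var2) (h3 : S_L1) (h4 : S_L3) (h5 : S_B4l) :
    Pool.Agent.H174.GP.S_a2l := by
  intro s1 s2 ε hs1 hs2 hε
  obtain ⟨ε1, hε1, d1, hB⟩ := h5 (s1 / 2) (s2 / 2) (ε / 2) (by positivity) (by positivity)
    (by positivity)
  -- the size of `d`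
  have hlog : Tendsto (fun d : ℕ => Real.log (d : ℝ)) atTop atTop :=
    Real.tendsto_log_atTop.comp tendsto_natCast_atTop_atTop
  obtain ⟨d2, hd2⟩ := (hlog.eventually_ge_atTop ((4 / s1) ^ 2 / ε1)).exists_forall_of_atTop
  obtain ⟨d3, hd3⟩ := (hlog.eventually_ge_atTop (2 * Real.log 2 / ε)).exists_forall_of_atTop
  refine ⟨ε1 / 4, by positivity, max (max d1 d2) (max d3 1), ?_⟩
  intro d hd σ hσ hsd hsd' m hm
  have k1 : d1 ≤ d := le_trans (le_trans (le_max_left _ _) (le_max_left _ _)) hd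
  have k2 : d2 ≤ d := le_trans (le_trans (le_max_right _ _) (le_max_left _ _)) hd
  have k3 : d3 ≤ d := le_trans (le_trans (le_max_left _ _) (le_max_right _ _)) hd
  have k4 : 1 ≤ d := le_trans (le_trans (le_max_right _ _) (le_max_right _ _)) hd
  have hd0 : (0 : ℝ) < d := by exact_mod_cast k4
  have hd1 : (1 : ℝ) ≤ d := by exact_mod_cast k4
  have hl0 : 0 ≤ Real.log d := Real.log_nonneg hd1
  have hσ2 : 0 < σ / 2 := by positivity
  have e1 : s1 / 2 ≤ σ / 2 * d := by linarith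
  have e2 : σ / 2 * d ≤ s2 / 2 := by linarith
  have hmass := typ_mass h1 h2 h3 h4 (by positivity : 0 < s1 / 2) k4 hσ2 e1
  set t : ℝ := 1 / (s1 / 2) * (d : ℝ) ^ (3 / 2 : ℝ) with ht
  set c : ℝ := (d : ℝ) ^ (-(3 / 2) - ε / 2 : ℝ) with hc
  have hc0 : 0 < c := Real.rpow_pos_of_pos hd0 _
  have hdp : 0 < (d : ℝ) ^ (3 / 2 : ℝ) := Real.rpow_pos_of_pos hd0 _
  -- square roots
  have q1 : Real.sqrt (ε1 / 4 * Real.log d) = Real.sqrt (ε1 * Real.log d) / 2 := by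
    rw [show ε1 / 4 * Real.log d = (ε1 * Real.log d) / 2 ^ 2 by ring, Real.sqrt_div' _ (by norm_num),
      Real.sqrt_sq (by norm_num)]
  have q2 : 4 / s1 ≤ Real.sqrt (ε1 * Real.log d) := by
    apply Real.le_sqrt_of_sq_le
    have := hd2 d k2
    rw [div_le_iff₀ hε1] at this
    linarith
  have hterm : ∀ n ∈ typ d (σ / 2) t, c ≤ aa d (σ / 2) (m - n) := by
    intro n hn
    unfold typ at hn
    rw [Finset.mem_filter] at hn
    refine hB d k1 (σ / 2) hσ2 e1 e2 (m - n) ?_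
    have r1 : (((m - n : ℤ)) : ℝ) - mu d (σ / 2) =
        ((m : ℝ) - 2 * mu d (σ / 2)) - ((n : ℝ) - mu d (σ / 2)) := by
      push_cast
      ring
    rw [r1]
    refine (abs_sub _ _).trans ?_
    rw [q1] at hm
    have r2 : t = (2 / s1) * (d : ℝ) ^ (3 / 2 : ℝ) := by
      rw [ht]
      congr 1
      field_simp
    have r3 : (2 / s1) ≤ Real.sqrt (ε1 * Real.log d) / 2 := by
      have : (2 / s1) = (4 / s1) / 2 := by ring
      rw [this]
      linarith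
    have r4 : t ≤ Real.sqrt (ε1 * Real.log d) / 2 * (d : ℝ) ^ (3 / 2 : ℝ) := by
      rw [r2]
      exact mul_le_mul_of_nonneg_right r3 hdp.le
    calc |(m : ℝ) - 2 * mu d (σ / 2)| + |(n : ℝ) - mu d (σ / 2)|
        ≤ Real.sqrt (ε1 * Real.log d) / 2 * (d : ℝ) ^ (3 / 2 : ℝ) +
          Real.sqrt (ε1 * Real.log d) / 2 * (d : ℝ) ^ (3 / 2 : ℝ) := add_le_add hm (hn.2.trans r4)
      _ = Real.sqrt (ε1 * Real.log d) * (d : ℝ) ^ (3 / 2 : ℝ) := by ring
  have hnm : ∀ n ∈ typ d (σ / 2) t, (n : ℤ) ≤ m := by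
    intro n hn
    by_contra hcon
    push Not at hcon
    have := hterm n hn
    rw [aa_neg (by omega)] at this
    linarith
  have hm0 : 0 ≤ m := by
    have hne : (typ d (σ / 2) t).Nonempty := by
      rw [Finset.nonempty_iff_ne_empty]
      intro he
      rw [he, Finset.sum_empty] at hmass
      norm_num at hmass
    obtain ⟨n, hn⟩ := hne
    have := hnm n hn
    omega
  have hsub : typ d (σ / 2) t ⊆ Finset.range (m.toNat + 1) := by
    intro n hn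
    have := hnm n hn
    rw [Finset.mem_range]
    omega
  have hfin : c * (1 / 2) ≤ a2 d σ m := by
    unfold a2
    rw [if_pos hm0]
    calc c * (1 / 2) ≤ c * ∑ n ∈ typ d (σ / 2) t, aa d (σ / 2) n :=
          mul_le_mul_of_nonneg_left hmass hc0.le
      _ = ∑ n ∈ typ d (σ / 2) t, aa d (σ / 2) n * c := by
          rw [Finset.mul_sum]
          exact Finset.sum_congr rfl fun n _ => mul_comm _ _
      _ ≤ ∑ n ∈ typ d (σ / 2) t, aa d (σ / 2) n * aa d (σ / 2) (m - n) :=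
          Finset.sum_le_sum fun n hn =>
            mul_le_mul_of_nonneg_left (hterm n hn) (aa_nonneg h1 hσ2 _)
      _ ≤ ∑ n ∈ Finset.range (m.toNat + 1), aa d (σ / 2) n * aa d (σ / 2) (m - n) :=
          Finset.sum_le_sum_of_subset_of_nonneg hsub fun n _ _ =>
            mul_nonneg (aa_nonneg h1 hσ2 _) (aa_nonneg h1 hσ2 _)
  refine le_trans ?_ hfin
  have g1 : (d : ℝ) ^ (-(3 / 2) - ε : ℝ) = c * (d : ℝ) ^ (-(ε / 2) : ℝ) := by
    rw [hc, ← Real.rpow_add hd0]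
    congr 1
    ring
  rw [g1]
  refine mul_le_mul_of_nonneg_left ?_ hc0.le
  rw [Real.rpow_neg hd0.le, one_div]
  apply inv_anti₀ (by norm_num)
  have g3 := hd3 d k3
  rw [div_le_iff₀ hε] at g3
  calc (2 : ℝ) = Real.exp (Real.log 2) := (Real.exp_log (by norm_num)).symm
    _ ≤ Real.exp (Real.log d * (ε / 2)) := Real.exp_le_exp.2 (by linarith)
    _ = (d : ℝ) ^ (ε / 2) := (Real.rpow_def_of_pos hd0 _).symm

end Pool.Agent.H967.GP174
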